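import Pool.Agent.J4H32.MV.S4

/-!
# Project MV of helper32: (CH), the choice of the scale (helper42)

Compare `Pool.Agent.J4H81.PT.width`, `exc_case`, `main_all` (helper81, files XGf, XGg).
-/

set_option autoImplicit false

namespace Pool.Agent.J4H42.MV

open Finset MeasureTheory Filter
open DirichletCharacter
open Pool.Agent.J4H81.PT
open Pool.Agent.J4H81.PT.ZF (NoZ ExZ b_lower scale_choice)
open Pool.Agent.J4H81.PT.DH (Lm dh_ZR)
open Pool.Agent.J4H32.MV

/-- the width of the region without zeros (compare `Pool.Agent.J4H81.PT.width`) -/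
theorem width' {A b l L g : ℝ} (hA : 1 ≤ A) (hb : 0 < b) (hg : 10 ^ 9 ≤ g) (hgA : 10 ^ 8 * A ≤ g) (hL : L = g ^ 8 * l)
    (hl32 : g ^ 32 ≤ l) (hlog : Real.log l ≤ g) (hlog2 : 3 * 10 ^ 8 ≤ Real.log l) (hbl : b ≤ 1 / (l * Real.log l ^ 2))
    (hB : -Real.log b ≤ 5 * (l / g ^ 4)) :
    ∃ d : ℝ, 1 / l ^ 2 ≤ d ∧ d ≤ 1 / 8 ∧ d ≤ 1 / g ^ 8 ∧ 32 * Lm l * b * Real.exp (d * Lm l) < 1 ∧
      A * (g - Real.log b) ≤ d * L := by
  have hg0 : 0 < g := by linarith
  have hg1 : 1 ≤ g := by linarith
  have hpw : ∀ n : ℕ, 1 ≤ g ^ n := fun n => one_le_pow₀ hg1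
  have hpw2 : ∀ m n : ℕ, m ≤ n → g ^ m ≤ g ^ n := fun m n h => pow_le_pow_right₀ hg1 h
  have hgl : g ≤ l := (le_self_pow₀ hg1 (by norm_num)).trans hl32
  have hl0 : 0 < l := by linarith
  have hl1 : 1 ≤ l := by linarith
  set v : ℝ := Real.log l with hv
  have hv0 : 0 < v := by linarith
  set B : ℝ := -Real.log b with hBdef
  -- the size of Lm
  have hLm : Lm l ≤ 28 * 10 ^ 5 * (l * v) := by
    unfold Lm
    have h1 : Real.log (14 * l) ≤ 3 + v := by
      rw [Real.log_mul (by norm_num) hl0.ne']
      have h2 : Real.log 14 ≤ 3 := by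
        rw [Real.log_le_iff_le_exp (by norm_num)]
        have h4 : Real.exp 3 = Real.exp 1 ^ 3 := by rw [← Real.exp_nat_mul]; norm_num
        rw [h4]
        have h5 : (2.7 : ℝ) ^ 3 ≤ Real.exp 1 ^ 3 := pow_le_pow_left₀ (by norm_num) (by have := Real.exp_one_gt_d9; linarith) 3
        refine le_trans ?_ h5
        norm_num
      linarith
    have h3 : 1 + Real.log (14 * l) ≤ 2 * v := by linarith
    calc 10 ^ 5 * (14 * l) * (1 + Real.log (14 * l)) ≤ 10 ^ 5 * (14 * l) * (2 * v) := mul_le_mul_of_nonneg_left h3 (by positivity)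
      _ = _ := by ring
  have hLm0 : 0 < Lm l := by
    unfold Lm
    have : 0 ≤ Real.log (14 * l) := Real.log_nonneg (by linarith)
    positivity
  set Λ : ℝ := Lm l with hΛ
  have h32 : 32 * Λ * b ≤ 1 / 3 := by
    have h1 : 32 * Λ * b ≤ 32 * (28 * 10 ^ 5 * (l * v)) * (1 / (l * v ^ 2)) := by gcongr
    have h2 : 32 * (28 * 10 ^ 5 * (l * v)) * (1 / (l * v ^ 2)) = 32 * (28 * 10 ^ 5) / v := by field_simp
    rw [h2] at h1
    refine h1.trans ?_
    rw [div_le_iff₀ hv0]
    linarith
  set D : ℝ := -Real.log (32 * Λ * b) with hD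
  have h32p : 0 < 32 * Λ * b := by positivity
  have hD1 : 1 ≤ D := by
    have h1 : Real.log (32 * Λ * b) ≤ Real.log (1 / 3) := Real.log_le_log h32p h32
    have h2 : Real.log (1 / 3) = -Real.log 3 := by rw [one_div, Real.log_inv]
    have h3 : 1 ≤ Real.log 3 := by
      rw [Real.le_log_iff_exp_le (by norm_num)]
      have := Real.exp_one_lt_d9
      linarith
    linarith
  have hDe : 32 * Λ * b = Real.exp (-D) := by rw [hD, neg_neg, Real.exp_log h32p]
  have hDB : D = B - Real.log (32 * Λ) := by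
    rw [hD, Real.log_mul (by positivity) hb.ne', hBdef]
    ring
  have ha : Real.log (32 * Λ) ≤ 2 * v := by
    have h1 : 32 * Λ ≤ l ^ 2 := by
      have h2 : 32 * (28 * 10 ^ 5 * (l * v)) ≤ l * l := by
        have h4 : 32 * (28 * 10 ^ 5) * v ≤ l := by
          have h5 : 32 * (28 * 10 ^ 5) * v ≤ g * g := by
            have h6 : (32 * (28 * 10 ^ 5) : ℝ) ≤ g := by linarith
            exact mul_le_mul h6 hlog hv0.le hg0.le
          have h7 : g * g = g ^ 2 := by ring
          rw [h7] at h5
          exact h5.trans ((hpw2 2 32 (by norm_num)).trans hl32)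
        calc 32 * (28 * 10 ^ 5 * (l * v)) = l * (32 * (28 * 10 ^ 5) * v) := by ring
          _ ≤ l * l := mul_le_mul_of_nonneg_left h4 hl0.le
      rw [sq]
      linarith
    have h2 := Real.log_le_log (by positivity) h1
    rw [Real.log_pow] at h2
    push_cast at h2
    exact h2
  have hDg : B / (4 * v) ≤ D := by
    rw [div_le_iff₀ (by positivity)]
    rcases le_or_gt (4 * v) B with h1 | h1
    · have h2 : B / 2 ≤ D := by linarith
      have h3 : B / 2 * (4 * v) ≤ D * (4 * v) := mul_le_mul_of_nonneg_right h2 (by positivity)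
      have h4 : B ≤ B / 2 * (4 * v) := by
        have h5 : B / 2 * (4 * v) = B * (2 * v) := by ring
        rw [h5]
        exact le_mul_of_one_le_right (by linarith) (by linarith)
      linarith
    · have h3 : 1 * (4 * v) ≤ D * (4 * v) := mul_le_mul_of_nonneg_right hD1 (by positivity)
      linarith
  have hB1 : 1 ≤ B := by
    have h1 : Real.log b ≤ Real.log (1 / (l * v ^ 2)) := Real.log_le_log hb hbl
    rw [one_div, Real.log_inv, Real.log_mul hl0.ne' (by positivity)] at h1
    have h2 : 0 ≤ Real.log (v ^ 2) := Real.log_nonneg (one_le_pow₀ (by linarith))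
    rw [← hv] at h1
    linarith
  set d : ℝ := min (D / (2 * Λ)) (1 / g ^ 8) with hd
  have hdΛ : d * Λ ≤ D / 2 := by
    have h1 : d * Λ ≤ D / (2 * Λ) * Λ := mul_le_mul_of_nonneg_right (min_le_left _ _) hLm0.le
    have h2 : D / (2 * Λ) * Λ = D / 2 := by field_simp
    linarith
  refine ⟨d, ?_, ?_, min_le_right _ _, ?_, ?_⟩
  · apply le_min
    · rw [div_le_div_iff₀ (by positivity) (by positivity), one_mul]
      have h1 : 2 * Λ ≤ l ^ 2 := by
        have h2 : 32 * Λ ≤ l ^ 2 := by
          have h3 := Real.exp_le_exp.2 ha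
          rw [Real.exp_log (by positivity)] at h3
          have h4 : Real.exp (2 * v) = l ^ 2 := by
            rw [hv, two_mul, Real.exp_add, Real.exp_log hl0, sq]
          rwa [h4] at h3
        linarith
      calc 2 * Λ ≤ l ^ 2 := h1
        _ ≤ D * l ^ 2 := le_mul_of_one_le_left (by positivity) hD1
    · apply one_div_le_one_div_of_le (by positivity)
      calc g ^ 8 ≤ g ^ 32 := hpw2 8 32 (by norm_num)
        _ ≤ l := hl32
        _ ≤ l ^ 2 := le_self_pow₀ hl1 (by norm_num)
  · refine (min_le_right _ _).trans ?_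
    apply one_div_le_one_div_of_le (by norm_num)
    have : g ≤ g ^ 8 := le_self_pow₀ hg1 (by norm_num)
    linarith
  · rw [hDe, ← Real.exp_add, Real.exp_lt_one_iff]
    linarith
  · have e3 : g - Real.log b = g + B := by rw [hBdef]; ring
    rw [e3]
    have hA0 : 0 < A := by linarith
    rcases min_choice (D / (2 * Λ)) (1 / g ^ 8) with h1 | h1
    · rw [hd, h1]
      have h2 : Λ ≤ 28 * 10 ^ 5 * (l * g) := by
        refine hLm.trans ?_
        have h3 : l * v ≤ l * g := mul_le_mul_of_nonneg_left hlog hl0.le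
        linarith
      have h4 : B / (4 * g) ≤ D := by
        refine le_trans ?_ hDg
        exact div_le_div_of_nonneg_left (by linarith) (by positivity) (by linarith)
      have h5 : B / (4 * g) / (2 * (28 * 10 ^ 5 * (l * g))) ≤ D / (2 * Λ) := by
        apply div_le_div₀ (by linarith) h4 (by positivity) (by linarith)
      have h6 : B / (4 * g) / (2 * (28 * 10 ^ 5 * (l * g))) * (g ^ 8 * l) = B * g ^ 6 / (4 * (2 * (28 * 10 ^ 5))) := by
        field_simp
      have h7 : B / (4 * g) / (2 * (28 * 10 ^ 5 * (l * g))) * (g ^ 8 * l) ≤ D / (2 * Λ) * L := by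
        rw [hL]
        exact mul_le_mul_of_nonneg_right h5 (by positivity)
      refine le_trans ?_ h7
      rw [h6, le_div_iff₀ (by norm_num)]
      have h8 : g + B ≤ 2 * (g * B) := by
        have h9 : g ≤ g * B := le_mul_of_one_le_right hg0.le hB1
        have h10 : B ≤ g * B := le_mul_of_one_le_left (by linarith) hg1
        linarith
      have h9 : 10 ^ 8 * A * (g * B) ≤ g * (g * B) := mul_le_mul_of_nonneg_right hgA (by positivity)
      have h10 : g * (g * B) ≤ B * g ^ 6 := by
        have e : g * (g * B) = B * g ^ 2 := by ring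
        rw [e]
        exact mul_le_mul_of_nonneg_left (hpw2 2 6 (by norm_num)) (by linarith)
      have h11 : A * (g + B) ≤ A * (2 * (g * B)) := mul_le_mul_of_nonneg_left h8 hA0.le
      have h12 : 0 ≤ A * (g * B) := by positivity
      linarith
    · rw [hd, h1]
      have e : 1 / g ^ 8 * L = l := by rw [hL]; field_simp
      rw [e]
      have hAg : 10 * A ≤ g := by linarith
      have h2 : A * g ≤ l / 2 := by
        have h3 : 2 * (A * g) ≤ g ^ 2 := by
          have : g ^ 2 = g * g := by ring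
          rw [this]
          have h4 : 2 * A ≤ g := by linarith
          have h5 := mul_le_mul_of_nonneg_right h4 hg0.le
          linarith
        have h4 := hpw2 2 32 (by norm_num)
        linarith
      have h3 : A * B ≤ l / 2 := by
        have h4 : A * B ≤ A * (5 * (l / g ^ 4)) := mul_le_mul_of_nonneg_left hB hA0.le
        have h5 : A * (5 * (l / g ^ 4)) = (10 * A / g ^ 4) * (l / 2) := by ring
        have h6 : 10 * A / g ^ 4 ≤ 1 := by
          rw [div_le_one (by positivity)]
          have : g ≤ g ^ 4 := le_self_pow₀ hg1 (by norm_num)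
          linarith
        have h7 : (10 * A / g ^ 4) * (l / 2) ≤ 1 * (l / 2) := mul_le_mul_of_nonneg_right h6 (by positivity)
        linarith
      linarith

theorem t_CH : S_GD → S_EX → S_CH := by
  intro hGD hEX η D hη hη2
  obtain ⟨c, l₀, hc, hc1, hl₀, hchoice⟩ := scale_choice
  obtain ⟨A₁, l₁, hA₁, hgood⟩ := hGD c η D hc hc1 hη hη2
  obtain ⟨A₂, l₂, hA₂, hexc⟩ := hEX η D hη hη2
  obtain ⟨c₀, hc₀, hc₀1, hblow⟩ := b_lower
  -- the size of `g = log log X`
  set G : ℝ := max (max (10 ^ 9) (10 ^ 8 * (A₂ + 1))) (max (max A₁ (500000 * ((D : ℝ) + 1))) (max (max l₀ (max l₁ l₂)) (-Real.log c₀))) with hG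
  have hpoly : ∀ᶠ g : ℝ in atTop, 1 * g ^ 41 ≤ Real.exp (1 * g) := poly_exp one_pos 41 1
  have hev : ∀ᶠ x : ℝ in atTop, G ≤ Real.log (Real.log x) ∧ 1 * Real.log (Real.log x) ^ 41 ≤ Real.exp (1 * Real.log (Real.log x)) ∧ 1 ≤ Real.log x := by
    have ht : Tendsto (fun x : ℝ => Real.log (Real.log x)) atTop atTop := Real.tendsto_log_atTop.comp Real.tendsto_log_atTop
    exact (ht.eventually (eventually_ge_atTop G)).and ((ht.eventually hpoly).and (Real.tendsto_log_atTop.eventually (eventually_ge_atTop 1)))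
  obtain ⟨X₀, hX₀⟩ := eventually_atTop.1 hev
  refine ⟨max X₀ 1, ?_⟩
  intro X hX
  obtain ⟨hgG, hg41, hL1⟩ := hX₀ X ((le_max_left _ _).trans hX)
  have hX1 : (1 : ℝ) ≤ X := (le_max_right _ _).trans hX
  set L : ℝ := Real.log X with hL
  set g : ℝ := Real.log L with hg
  have hL0 : 0 < L := by linarith
  have hgexp : Real.exp g = L := Real.exp_log hL0
  rw [one_mul, one_mul, hgexp] at hg41
  have hg9 : 10 ^ 9 ≤ g := ((le_max_left _ _).trans (le_max_left _ _)).trans hgG
  have hgA2 : 10 ^ 8 * (A₂ + 1) ≤ g := ((le_max_right _ _).trans (le_max_left _ _)).trans hgG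
  have hgA1 : A₁ ≤ g := ((le_max_left _ _).trans ((le_max_left _ _).trans (le_max_right _ _))).trans hgG
  have hgD : 500000 * ((D : ℝ) + 1) ≤ g := ((le_max_right _ _).trans ((le_max_left _ _).trans (le_max_right _ _))).trans hgG
  have hgl₀ : l₀ ≤ g := ((le_max_left _ _).trans ((le_max_left _ _).trans ((le_max_right _ _).trans (le_max_right _ _)))).trans hgG
  have hgl₁ : l₁ ≤ g := ((le_max_left _ _).trans ((le_max_right _ _).trans ((le_max_left _ _).trans ((le_max_right _ _).trans (le_max_right _ _))))).trans hgG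
  have hgl₂ : l₂ ≤ g := ((le_max_right _ _).trans ((le_max_right _ _).trans ((le_max_left _ _).trans ((le_max_right _ _).trans (le_max_right _ _))))).trans hgG
  have hgc₀ : -Real.log c₀ ≤ g := ((le_max_right _ _).trans ((le_max_right _ _).trans (le_max_right _ _))).trans hgG
  have hg0 : 0 < g := by linarith
  have hg1 : 1 ≤ g := by linarith
  have hpw : ∀ n : ℕ, 1 ≤ g ^ n := fun n => one_le_pow₀ hg1
  have hpw2 : ∀ m n : ℕ, m ≤ n → g ^ m ≤ g ^ n := fun m n h => pow_le_pow_right₀ hg1 h
  -- the bounds for the logarithm of `4 X`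
  have hXpos : (0 : ℝ) < X := by linarith
  have hy1 : L ≤ Real.log ((4 * X : ℕ) : ℝ) := by
    rw [hL]
    apply Real.log_le_log hXpos
    push_cast
    linarith
  have hy2 : Real.log ((4 * X + 1 : ℕ) : ℝ) ≤ 2 * L := by
    have h1 : Real.log ((4 * X + 1 : ℕ) : ℝ) ≤ Real.log (5 * X) := by
      apply Real.log_le_log (by positivity)
      push_cast
      linarith
    rw [Real.log_mul (by norm_num) hXpos.ne', ← hL] at h1
    have h2 : Real.log 5 ≤ 4 := by
      have := Real.log_le_sub_one_of_pos (show (0 : ℝ) < 5 by norm_num)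
      linarith
    have h3 : g ≤ L := (le_self_pow₀ hg1 (by norm_num)).trans hg41
    linarith
  -- the scales
  set m : ℝ := L / g ^ 12 with hm
  set l : ℝ := L / g ^ 8 with hl
  have hLl : L = g ^ 8 * l := by rw [hl]; field_simp
  have hml : m = l / g ^ 4 := by
    rw [hm, hl, div_div]
    congr 1
    ring
  have hLm : L = g ^ 12 * m := by rw [hm]; field_simp
  have hm29 : g ^ 29 ≤ m := by
    rw [hm, le_div_iff₀ (by positivity)]
    calc g ^ 29 * g ^ 12 = g ^ 41 := by ring
      _ ≤ L := hg41
  have hl33 : g ^ 33 ≤ l := by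
    rw [hl, le_div_iff₀ (by positivity)]
    calc g ^ 33 * g ^ 8 = g ^ 41 := by ring
      _ ≤ L := hg41
  have hl32 : g ^ 32 ≤ l := (hpw2 32 33 (by norm_num)).trans hl33
  have hgm : g ≤ m := (le_self_pow₀ hg1 (by norm_num)).trans hm29
  have hgl : g ≤ l := (le_self_pow₀ hg1 (by norm_num)).trans hl33
  have hm0 : 0 < m := by linarith
  have hl0 : 0 < l := by linarith
  have hl1 : 1 ≤ l := by linarith
  have hlL : l ≤ L := by
    rw [hl]
    exact div_le_self hL0.le (hpw 8)
  have hlogl : Real.log l ≤ g := Real.log_le_log hl0 hlL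
  have h2ml : 2 * m ≤ l := by
    have h1 : l = g ^ 4 * m := by rw [hml]; field_simp
    rw [h1]
    apply mul_le_mul_of_nonneg_right _ hm0.le
    have : g ≤ g ^ 4 := le_self_pow₀ hg1 (by norm_num)
    linarith
  have hlogl0 : 0 ≤ Real.log l := Real.log_nonneg hl1
  rcases hchoice l (hgl₀.trans hgl) m (by linarith) h2ml with ⟨s, hs1, hs2, hno⟩ | ⟨q, i, χ, β, hex, hq, hβ⟩
  · -- a good scale
    have hs3 : s ≤ L / g ^ 5 := by
      refine hs2.trans ?_
      calc l * Real.log l ^ 3 ≤ l * g ^ 3 := by gcongr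
        _ = L / g ^ 5 := by rw [hl]; field_simp
    have hgs : g ≤ s := hgm.trans hs1
    have hs0 : 0 < s := by linarith
    have hsL : s ≤ L := hs3.trans (div_le_self hL0.le (hpw 5))
    have hlogs : Real.log s ≤ g := Real.log_le_log hs0 hsL
    have hlogs0 : 0 ≤ Real.log s := Real.log_nonneg (by linarith)
    refine ⟨s, hs1, ?_, ?_⟩
    · refine hs3.trans ?_
      exact div_le_div_of_nonneg_left hL0.le (by positivity) (hpw2 4 5 (by norm_num))
    · apply hgood s (hgl₁.trans hgs) hno
      · have hy0 : (0 : ℝ) < ((4 * X : ℕ) : ℝ) := by push_cast; linarith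
        rw [← Real.le_log_iff_exp_le hy0]
        refine le_trans ?_ hy1
        have h1 : A₁ * s * Real.log s ≤ g * (L / g ^ 5) * g := by gcongr
        refine h1.trans ?_
        have h2 : g * (L / g ^ 5) * g = L / g ^ 3 := by field_simp
        rw [h2]
        exact div_le_self hL0.le (hpw 3)
      · refine hy2.trans ?_
        have h1 : m ^ 2 ≤ s ^ 2 := pow_le_pow_left₀ hm0.le hs1 2
        refine le_trans ?_ h1
        have h2 : 2 * L = (2 * g ^ 12) * m := by rw [hLm]; ring
        rw [h2, sq]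
        apply mul_le_mul_of_nonneg_right _ hm0.le
        refine le_trans ?_ hm29
        have h3 : g ^ 13 ≤ g ^ 29 := hpw2 13 29 (by norm_num)
        have h4 : g ^ 13 = g * g ^ 12 := by ring
        have h5 : 2 * g ^ 12 ≤ g * g ^ 12 := mul_le_mul_of_nonneg_right (by linarith) (by positivity)
        linarith
  · -- an exceptional zero
    refine ⟨l, ?_, ?_, ?_⟩
    · rw [hl]
      exact div_le_div_of_nonneg_left hL0.le (by positivity) (hpw2 8 12 (by norm_num))
    · rw [hl]
      exact div_le_div_of_nonneg_left hL0.le (by positivity) (hpw2 4 8 (by norm_num))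
    obtain ⟨hp, hχ1, hχ2, hβ1, hz⟩ := hex
    set b : ℝ := 1 - β with hb
    have hb0 : 0 < b := by linarith
    have hzb : LFunction χ ((1 - b : ℝ) : ℂ) = 0 := by
      have e : 1 - b = β := by rw [hb]; ring
      rw [e]; exact hz
    have hlog2 : 3 * 10 ^ 8 ≤ Real.log l := by
      have h1 : Real.log l = g - 8 * Real.log g := by
        rw [hl, Real.log_div hL0.ne' (by positivity), Real.log_pow, ← hg]
        push_cast
        ring
      have h2 : Real.log g ≤ g / 16 := by
        have h3 : g ^ 41 ≤ Real.exp g := by rw [hgexp]; exact hg41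
        have h4 := Real.log_le_log (by positivity) h3
        rw [Real.log_pow, Real.log_exp] at h4
        push_cast at h4
        linarith
      linarith
    have hb8 : b ≤ 1 / 8 := by
      refine hβ.trans ?_
      apply one_div_le_one_div_of_le (by norm_num)
      have h1 : 1 ≤ Real.log l ^ 2 := one_le_pow₀ (by linarith)
      have h2 : l ≤ l * Real.log l ^ 2 := le_mul_of_one_le_right hl0.le h1
      linarith
    have hq1 : (1 : ℝ) ≤ q := by exact_mod_cast Nat.one_le_iff_ne_zero.2 (NeZero.ne q)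
    have hq0 : (0 : ℝ) < q := by linarith
    -- the lower bound for b
    have hB : -Real.log b ≤ 5 * (l / g ^ 4) := by
      have h1 := hblow q χ b hp hχ2 hχ1 hb0 hb8 hzb
      have h2 := Real.log_le_log (by positivity) h1
      rw [Real.log_div hc₀.ne' (by positivity), Real.log_pow] at h2
      push_cast at h2
      rw [← hml]
      linarith
    obtain ⟨d, hd1, hd8, hdg, hdΛ, hdB⟩ := width' (A := A₂ + 1) (by linarith) hb0 hg9 hgA2 hLl hl32 hlogl hlog2 hβ hB
    have hd0 : 0 < d := lt_of_lt_of_le (by positivity) hd1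
    have hg4 : g ≤ g ^ 4 := le_self_pow₀ hg1 (by norm_num)
    have hg4' : 1000000 * (l / g ^ 4) ≤ l := by
      have h1 : 1000000 * (l / g ^ 4) = (1000000 / g ^ 4) * l := by ring
      rw [h1]
      have h2 : 1000000 / g ^ 4 ≤ 1 := by
        rw [div_le_one (by positivity)]
        linarith
      have h3 := mul_le_mul_of_nonneg_right h2 hl0.le
      linarith
    have hlogq : Real.log q ≤ l / 20000 := by
      rw [hml] at hq
      rw [le_div_iff₀ (by norm_num)]
      have : 0 ≤ l / g ^ 4 := by positivity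
      linarith
    have hZR := dh_ZR (by linarith : (8 : ℝ) ≤ l) hχ1 hχ2 hp hb0 hb8 hzb (by linarith) hd8 hdΛ
    apply hexc l (hgl₂.trans hgl) q χ b d hχ2 hp hχ1 _ hb0 hb8 _ hzb hd1 hd8 hZR
    · have hy0 : (0 : ℝ) < ((4 * X : ℕ) : ℝ) := by push_cast; linarith
      rw [← Real.le_log_iff_exp_le hy0]
      refine le_trans ?_ hy1
      rw [hLl]
      apply mul_le_mul_of_nonneg_right _ hl0.le
      have : g ≤ g ^ 8 := le_self_pow₀ hg1 (by norm_num)
      linarith
    · refine hy2.trans ?_
      have h2 : 2 * L = (2 * g ^ 8) * l := by rw [hLl]; ring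
      rw [h2, sq]
      apply mul_le_mul_of_nonneg_right _ hl0.le
      refine le_trans ?_ hl33
      have h3 : g ^ 9 ≤ g ^ 33 := hpw2 9 33 (by norm_num)
      have h4 : g ^ 9 = g * g ^ 8 := by ring
      have h5 : 2 * g ^ 8 ≤ g * g ^ 8 := mul_le_mul_of_nonneg_right (by linarith) (by positivity)
      linarith
    · have h1 : d * Real.log ((4 * X + 1 : ℕ) : ℝ) ≤ 1 / g ^ 8 * (2 * L) := by
        apply mul_le_mul hdg hy2 (Real.log_natCast_nonneg _) (by positivity)
      refine h1.trans (le_of_eq ?_)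
      rw [hLl]
      field_simp
    · have hBn : 0 ≤ -Real.log b := by
        have : Real.log b ≤ 0 := Real.log_nonpos hb0.le (by linarith)
        linarith
      have h1 : A₂ * (Real.log l - Real.log b) ≤ (A₂ + 1) * (g - Real.log b) := by
        apply mul_le_mul (by linarith) (by linarith) (by linarith) (by linarith)
      refine h1.trans (hdB.trans ?_)
      exact mul_le_mul_of_nonneg_left hy1 hd0.le
    · rw [← Real.log_le_iff_le_exp hq0]
      exact hlogq
    · rw [← Real.le_log_iff_exp_le hb0]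
      have h1 : 5 * (l / g ^ 4) ≤ l / (100000 * ((D : ℝ) + 1)) := by
        have hD0 : (0 : ℝ) ≤ D := Nat.cast_nonneg D
        rw [le_div_iff₀ (by positivity)]
        have h2 : 5 * (l / g ^ 4) * (100000 * ((D : ℝ) + 1)) = (500000 * ((D : ℝ) + 1) / g ^ 4) * l := by ring
        rw [h2]
        have h3 : 500000 * ((D : ℝ) + 1) / g ^ 4 ≤ 1 := by
          rw [div_le_one (by positivity)]
          linarith
        have h4 := mul_le_mul_of_nonneg_right h3 hl0.le
        linarith
      linarith

end Pool.Agent.J4H42.MV
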